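import Pool.Agent.Q150.EA.AsvB

/-!
# Project EA of helper161, job ASV
-/

set_option autoImplicit false
set_option linter.all false

namespace Pool.Agent.Q150.EA

open NumberField IsDedekindDomain Finset
open Pool.Agent.Q51.EL Pool.Agent.Q161.EA
open Pool.Agent.Q161.OD (P1 P2 red rho)

/-- comparison of `exp (-η)` and `1 - η` -/
theorem exp_cmp {n l : ℕ} (hl : 2 ≤ l) (hn : 1 ≤ n) {x : ℝ} (h1 : 1 - (n : ℝ) / l ≤ x) (h2 : 1 ≤ x * (l : ℝ) ^ n)
    (h3 : x ≤ 1) : Real.exp (-(1 - x)) ≤ x * Real.exp ((8 * (n : ℝ) ^ 4 + 2 * (n : ℝ) ^ 2) * (1 / (l : ℝ) ^ 2)) := by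
  have hl0 : (0 : ℝ) < l := by exact_mod_cast (by omega : 0 < l)
  have hn1 : (1 : ℝ) ≤ n := by exact_mod_cast hn
  have hln : (0 : ℝ) < (l : ℝ) ^ n := by positivity
  have hx0 : 0 < x := by
    by_contra hcon
    push Not at hcon
    nlinarith
  rcases le_or_gt l (2 * n) with h | h
  · have h4 : (l : ℝ) ≤ 2 * n := by exact_mod_cast h
    have h5 : (n : ℝ) * l ≤ (8 * (n : ℝ) ^ 4 + 2 * (n : ℝ) ^ 2) * (1 / (l : ℝ) ^ 2) := by
      rw [mul_one_div, le_div_iff₀ (by positivity)]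
      have h6 : (l : ℝ) ^ 3 ≤ (2 * n) ^ 3 := by gcongr
      have h7 : (n : ℝ) * l * (l : ℝ) ^ 2 = n * (l : ℝ) ^ 3 := by ring
      rw [h7]
      have h8 : (n : ℝ) * (l : ℝ) ^ 3 ≤ n * (2 * n) ^ 3 := by gcongr
      have h9 : (n : ℝ) * (2 * n) ^ 3 = 8 * (n : ℝ) ^ 4 := by ring
      have : (0 : ℝ) ≤ 2 * (n : ℝ) ^ 2 := by positivity
      linarith
    have h6 : (l : ℝ) ^ n ≤ Real.exp ((n : ℝ) * l) := by
      rw [Real.exp_nat_mul]
      have := Real.add_one_le_exp (l : ℝ)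
      exact pow_le_pow_left₀ hl0.le (by linarith) n
    calc Real.exp (-(1 - x)) ≤ 1 := by
          rw [Real.exp_le_one_iff]
          linarith
      _ ≤ x * (l : ℝ) ^ n := h2
      _ ≤ x * Real.exp ((8 * (n : ℝ) ^ 4 + 2 * (n : ℝ) ^ 2) * (1 / (l : ℝ) ^ 2)) := by
          refine mul_le_mul_of_nonneg_left ?_ hx0.le
          exact h6.trans (Real.exp_le_exp.2 h5)
  · have h4 : (2 : ℝ) * n < l := by exact_mod_cast h
    obtain ⟨e, he⟩ : ∃ e : ℝ, e = 1 - x := ⟨_, rfl⟩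
    have he0 : 0 ≤ e := by linarith
    have he1 : e ≤ (n : ℝ) / l := by linarith
    have he2 : e ≤ 1 / 2 := by
      refine he1.trans ?_
      rw [div_le_div_iff₀ hl0 two_pos]
      linarith
    have h5 : -e - 2 * e ^ 2 ≤ Real.log x := by
      have h6 := Real.one_sub_inv_le_log_of_pos hx0
      refine le_trans ?_ h6
      have h7 : x⁻¹ ≤ 1 + e + 2 * e ^ 2 := by
        rw [inv_le_iff_one_le_mul₀ hx0]
        have : x = 1 - e := by linarith
        rw [this]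
        nlinarith [sq_nonneg e]
      linarith
    have h6 : 2 * e ^ 2 ≤ (8 * (n : ℝ) ^ 4 + 2 * (n : ℝ) ^ 2) * (1 / (l : ℝ) ^ 2) := by
      have h7 : e ^ 2 ≤ ((n : ℝ) / l) ^ 2 := by gcongr
      have h8 : (8 * (n : ℝ) ^ 4 + 2 * (n : ℝ) ^ 2) * (1 / (l : ℝ) ^ 2) =
          8 * (n : ℝ) ^ 4 * (1 / (l : ℝ) ^ 2) + 2 * ((n : ℝ) / l) ^ 2 := by
        rw [div_pow]
        ring
      have : 0 ≤ 8 * (n : ℝ) ^ 4 * (1 / (l : ℝ) ^ 2) := by positivity
      rw [h8]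
      linarith
    rw [← he]
    calc Real.exp (-e) ≤ Real.exp (Real.log x + (8 * (n : ℝ) ^ 4 + 2 * (n : ℝ) ^ 2) * (1 / (l : ℝ) ^ 2)) := by
          apply Real.exp_le_exp.2
          linarith
      _ = _ := by rw [Real.exp_add, Real.exp_log hx0]

theorem asv : S_SAT → S_CNT1 → S_ASV := by
  classical
  intro _ hcnt L _ _ hn B hB
  obtain ⟨Co, hCo, hone⟩ := one_class L
  obtain ⟨⟨B0, hB0, hram⟩, hN1⟩ := Pool.Agent.Q91.EL.ram L
  set n := Module.finrank ℚ L with hndef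
  have hn1 : 1 ≤ n := by omega
  have hn0 : (0:ℝ) < n := by exact_mod_cast hn1
  have hsumm : Summable (fun n : ℕ => 1 / (n : ℝ) ^ 2) :=
    Real.summable_one_div_nat_pow.2 (by norm_num)
  obtain ⟨K2, hK2⟩ : ∃ K2 : ℝ, K2 = ∑' n : ℕ, 1 / (n : ℝ) ^ 2 := ⟨_, rfl⟩
  obtain ⟨K, hK⟩ : ∃ K : ℝ, K = 8 * (n : ℝ) ^ 4 + 2 * (n : ℝ) ^ 2 := ⟨_, rfl⟩
  have hK0 : 0 ≤ K := by rw [hK]; positivity
  have hsq : ∀ A : Finset ℕ, ∑ l ∈ A, 1 / (l : ℝ) ^ 2 ≤ K2 := by
    intro A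
    rw [hK2]
    exact hsumm.sum_le_tsum _ fun n _ => by positivity
  refine ⟨Co * Real.exp (K * K2 + (((n : ℝ) + 1) ^ 2 * K2 + n * (B0 + 1))), by positivity, ?_⟩
  intro T hT m Y P R hm hY hmY hPR hP hR
  have hfinS : {α : 𝓞 L | (α, m) ∈ T ∧ ∀ σ : L →+* ℂ, ‖σ (α : L)‖ ≤ Y}.Finite :=
    Pool.Agent.Q247.EL.finite_box L {α : 𝓞 L | (α, m) ∈ T} Y
  refine ⟨hfinS, ?_⟩
  have hY0 : 0 < Y := by linarith
  set S : Finset (𝓞 L) := hfinS.toFinset with hS
  have hSmem : ∀ α, α ∈ S ↔ (α, m) ∈ T ∧ ∀ σ : L →+* ℂ, ‖σ (α : L)‖ ≤ Y := by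
    intro α
    rw [hS, Set.Finite.mem_toFinset]
    rfl
  have hScard : {α : 𝓞 L | (α, m) ∈ T ∧ ∀ σ : L →+* ℂ, ‖σ (α : L)‖ ≤ Y}.ncard = S.card :=
    Set.ncard_eq_toFinset_card _ hfinS
  rw [hScard]
  -- the modulus
  set D : Finset ℕ := P.filter (fun l => (l : ℤ) ∣ m) with hD
  set P' : Finset ℕ := P.filter (fun l => ¬ (l : ℤ) ∣ m) with hP'
  obtain ⟨q, hq⟩ : ∃ q : ℕ, q = ∏ l ∈ D, l := ⟨_, rfl⟩
  have hDp : ∀ l ∈ D, l.Prime := fun l hl => (hP l (mem_filter.1 hl).1).1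
  have hqm : q ∣ m.natAbs := by
    rw [hq]
    refine Finset.prod_primes_dvd _ (fun l hl => (hDp l hl).prime) fun l hl => ?_
    exact Int.natCast_dvd.1 (mem_filter.1 hl).2
  have hqm' : (q : ℤ) ∣ m := Int.natCast_dvd.2 hqm
  have hq1 : 1 ≤ q := by
    rw [hq]
    exact Finset.prod_pos fun l hl => (hDp l hl).pos
  have hqY : (q : ℝ) ^ 2 ≤ Y := by
    refine le_trans ?_ hmY
    have h1 : q ≤ m.natAbs := Nat.le_of_dvd (Int.natAbs_pos.2 hm) hqm
    have h2 : (q : ℝ) ≤ |(m : ℝ)| := by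
      have h3 : ((m.natAbs : ℕ) : ℝ) = |(m : ℝ)| := by
        rw [Nat.cast_natAbs, Int.cast_abs]
      rw [← h3]
      exact_mod_cast h1
    calc (q : ℝ) ^ 2 ≤ |(m : ℝ)| ^ 2 := by gcongr
      _ = (m : ℝ) ^ 2 := sq_abs _
  have hq0 : (0 : ℝ) < q := by exact_mod_cast hq1
  have hndvd : ∀ t : ℕ, ¬ (t : ℤ) ∣ m → ¬ t ∣ q := by
    intro t ht h
    exact ht ((Int.natCast_dvd_natCast.2 h).trans hqm')
  -- the densities
  obtain ⟨eP, heP⟩ : ∃ eP : ℕ → ℝ, eP = fun l => 1 - (oma T l m : ℝ) / (l : ℝ) ^ n := ⟨_, rfl⟩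
  obtain ⟨eR, heR⟩ : ∃ eR : ℕ → ℝ, eR = fun l => (N1 L l : ℝ) / (2 * l) - ((n : ℝ) + 1) ^ 2 / (l : ℝ) ^ 2 := ⟨_, rfl⟩
  obtain ⟨η, hη⟩ : ∃ η : ℕ → ℝ, η = fun l => if l ∈ P then eP l else eR l := ⟨_, rfl⟩
  set P1' : Finset ℕ := P'.filter (fun l => 0 < eP l) with hP1'
  set R1 : Finset ℕ := R.filter (fun l => ¬ l ∣ B0 ∧ l ≠ 2 ∧ 0 < eR l) with hR1
  have hηP : ∀ l ∈ P, η l = eP l := fun l hl => by rw [hη]; exact if_pos hl
  have hηR : ∀ l ∈ R, η l = eR l := fun l hl => by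
    rw [hη]
    exact if_neg fun h => Finset.disjoint_left.1 hPR h hl
  have hP1mem : ∀ l ∈ P1', l ∈ P ∧ ¬ (l : ℤ) ∣ m ∧ 0 < eP l := by
    intro l hl
    rw [hP1', mem_filter, hP', mem_filter] at hl
    exact ⟨hl.1.1, hl.1.2, hl.2⟩
  have hR1mem : ∀ l ∈ R1, l ∈ R ∧ ¬ l ∣ B0 ∧ l ≠ 2 ∧ 0 < eR l := by
    intro l hl
    rw [hR1, mem_filter] at hl
    exact hl
  obtain ⟨U, hU⟩ : ∃ U : ℕ → Set (𝓞 L), U = fun t => if t ∈ P then {α : 𝓞 L | (α, m) ∈ Sat t T} else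
      {α : 𝓞 L | (α, m) ∈ T} := ⟨_, rfl⟩
  obtain ⟨M, hM⟩ : ∃ M : ℝ, M = Co * (Y / q) ^ n * Real.exp (- ∑ t ∈ P1' ∪ R1, η t) := ⟨_, rfl⟩
  have hM0 : 0 ≤ M := by rw [hM]; positivity
  have hcard : (S.card : ℝ) ≤ (∏ l ∈ D, (oma T l m : ℝ)) * M := by
    refine classes D hDp T m S (fun α hα => ((hSmem α).1 hα).1) M hM0 ?_
    intro α₀ hα₀ F hFS hF
    rw [← hq] at hF
    rw [hM]
    refine hone q α₀ F U Y (P1' ∪ R1) η hY hq1 hqY hF ((hSmem α₀).1 hα₀).2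
      (fun α hα => ((hSmem α).1 (hFS hα)).2) ?_ ?_ ?_
    · intro t ht
      rcases mem_union.1 ht with h | h
      · obtain ⟨h1, h2, -⟩ := hP1mem t h
        exact ⟨(hP t h1).1, hndvd t h2, (hP t h1).2.2⟩
      · obtain ⟨h1, -⟩ := hR1mem t h
        exact ⟨(hR t h1).1, hndvd t (hR t h1).2.2.2, (hR t h1).2.2.1⟩
    · intro t ht
      rcases mem_union.1 ht with h | h
      · obtain ⟨h1, h2, h3⟩ := hP1mem t h
        rw [hηP t h1]
        refine ⟨h3, ?_⟩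
        have ht0 : (0 : ℝ) < t := by exact_mod_cast (hP t h1).1.pos
        have h4 := (oma_bds (hP t h1).1 T m h2).1
        rw [heP]
        dsimp only
        have h5 : 1 - (n : ℝ) / t ≤ (oma T t m : ℝ) / (t : ℝ) ^ n := by
          rw [le_div_iff₀ (by positivity), mul_comm]
          exact h4
        linarith
      · obtain ⟨h1, -, -, h3⟩ := hR1mem t h
        rw [hηR t h1]
        refine ⟨h3, ?_⟩
        have ht0 : (0 : ℝ) < t := by exact_mod_cast (hR t h1).1.pos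
        have h4 : (N1 L t : ℝ) ≤ n := by exact_mod_cast hN1 t (hR t h1).1
        rw [heR]
        dsimp only
        have h5 : (N1 L t : ℝ) / (2 * t) ≤ (n : ℝ) / t := by
          rw [div_le_div_iff₀ (by positivity) ht0]
          nlinarith
        have h6 : 0 ≤ ((n : ℝ) + 1) ^ 2 / (t : ℝ) ^ 2 := by positivity
        linarith
    · intro t ht
      rcases mem_union.1 ht with h | h
      · obtain ⟨h1, h2, h3⟩ := hP1mem t h
        have hUt : U t = {α : 𝓞 L | (α, m) ∈ Sat t T} := by rw [hU]; exact if_pos h1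
        rw [hUt, hηP t h1]
        refine ⟨fun α hα => Or.inr ⟨(α, m), ((hSmem α).1 (hFS hα)).1, rfl⟩, le_of_eq ?_⟩
        have ht0 : (0 : ℝ) < t := by exact_mod_cast (hP t h1).1.pos
        rw [heP]
        dsimp only
        rw [sub_sub_cancel, div_mul_cancel₀ _ (by positivity)]
        rfl
      · obtain ⟨h1, h2, h3, h4⟩ := hR1mem t h
        have hUt : U t = {α : 𝓞 L | (α, m) ∈ T} := by
          rw [hU]
          exact if_neg fun h' => Finset.disjoint_left.1 hPR h' h1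
        rw [hUt, hηR t h1]
        refine ⟨fun α hα => ((hSmem α).1 (hFS hα)).1, ?_⟩
        obtain ⟨t1, t2⟩ := hT t (hR t h1).1 (hR t h1).2.1
        have h5 := hcnt L t (hR t h1).1 h3 (by omega) (hram t (hR t h1).1 h2) T t1 t2 m (hR t h1).2.2.2
        refine h5.trans (le_of_eq ?_)
        rw [heR]
        dsimp only
        rw [← hndef]
        ring
  -- the product over D
  have hprodD : (∏ l ∈ D, (oma T l m : ℝ)) * (Y / q) ^ n = Y ^ n * ∏ l ∈ D, (oma T l m : ℝ) / (l : ℝ) ^ n := by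
    rw [Finset.prod_div_distrib, div_pow, Finset.prod_pow]
    have h1 : (q : ℝ) = ∏ l ∈ D, (l : ℝ) := by
      rw [hq]
      push_cast
      rfl
    rw [← h1]
    ring
  -- the exponential
  have hdisj : Disjoint P1' R1 := by
    rw [Finset.disjoint_left]
    intro l h1 h2
    exact Finset.disjoint_left.1 hPR (hP1mem l h1).1 (hR1mem l h2).1
  have hsum : ∑ t ∈ P1' ∪ R1, η t = ∑ l ∈ P', eP l + ∑ l ∈ R1, eR l := by
    rw [Finset.sum_union hdisj]
    congr 1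
    · rw [Finset.sum_congr rfl fun l hl => hηP l (hP1mem l hl).1, hP1', Finset.sum_filter]
      refine Finset.sum_congr rfl fun l hl => ?_
      split_ifs with h
      · rfl
      · rw [hP', mem_filter] at hl
        have h1 := (oma_bds (hP l hl.1).1 T m hl.2).2.2
        have hl0 : (0 : ℝ) < l := by exact_mod_cast (hP l hl.1).1.pos
        have h2 : 0 ≤ eP l := by
          rw [heP]
          dsimp only
          rw [sub_nonneg, div_le_one (by positivity)]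
          exact h1
        linarith
    · exact Finset.sum_congr rfl fun l hl => hηR l (hR1mem l hl).1
  have hexpP : Real.exp (- ∑ l ∈ P', eP l) ≤ (∏ l ∈ P', (oma T l m : ℝ) / (l : ℝ) ^ n) * Real.exp (K * K2) := by
    have h1 : Real.exp (- ∑ l ∈ P', eP l) ≤ ∏ l ∈ P', ((oma T l m : ℝ) / (l : ℝ) ^ n *
        Real.exp (K * (1 / (l : ℝ) ^ 2))) := by
      rw [← Finset.sum_neg_distrib, Real.exp_sum]
      refine Finset.prod_le_prod (fun _ _ => (Real.exp_pos _).le) fun l hl => ?_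
      rw [hP', mem_filter] at hl
      have hlp := (hP l hl.1).1
      have hl0 : (0 : ℝ) < l := by exact_mod_cast hlp.pos
      obtain ⟨b1, b2, b3⟩ := oma_bds hlp T m hl.2
      rw [hK, heP]
      dsimp only
      refine exp_cmp hlp.two_le hn1 ?_ ?_ ?_
      · rw [le_div_iff₀ (by positivity), mul_comm]
        exact b1
      · rw [div_mul_cancel₀ _ (by positivity)]
        exact b2
      · rw [div_le_one (by positivity)]
        exact b3
    refine h1.trans ?_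
    rw [Finset.prod_mul_distrib, ← Real.exp_sum, ← Finset.mul_sum]
    refine mul_le_mul_of_nonneg_left ?_ (Finset.prod_nonneg fun _ _ => by positivity)
    apply Real.exp_le_exp.2
    exact mul_le_mul_of_nonneg_left (hsq _) hK0
  have hsumR : 1 / 2 * ∑ l ∈ R, (N1 L l : ℝ) / l ≤ ∑ l ∈ R1, eR l + (((n : ℝ) + 1) ^ 2 * K2 + n * (B0 + 1)) := by
    have h1 : ∀ l ∈ R, 1 / 2 * ((N1 L l : ℝ) / l) ≤ (if (¬ l ∣ B0 ∧ l ≠ 2 ∧ 0 < eR l) then eR l else 0) +
        (((n : ℝ) + 1) ^ 2 * (1 / (l : ℝ) ^ 2) + if l ∈ insert 2 (Icc 1 B0) then (n : ℝ) else 0) := by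
      intro l hl
      have hlp := (hR l hl).1
      have hl0 : (0 : ℝ) < l := by exact_mod_cast hlp.pos
      have hl2 : (2 : ℝ) ≤ l := by exact_mod_cast hlp.two_le
      have h4 : (N1 L l : ℝ) ≤ n := by exact_mod_cast hN1 l hlp
      have h5 : eR l = 1 / 2 * ((N1 L l : ℝ) / l) - ((n : ℝ) + 1) ^ 2 * (1 / (l : ℝ) ^ 2) := by
        rw [heR]
        dsimp only
        ring
      have h6 : 0 ≤ ((n : ℝ) + 1) ^ 2 * (1 / (l : ℝ) ^ 2) := by positivity
      have h8 : 1 / 2 * ((N1 L l : ℝ) / l) ≤ n := by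
        have h9 : (N1 L l : ℝ) / l ≤ n := by
          rw [div_le_iff₀ hl0]
          nlinarith
        have h10 : 0 ≤ (N1 L l : ℝ) / l := by positivity
        linarith
      by_cases hc : ¬ l ∣ B0 ∧ l ≠ 2 ∧ 0 < eR l
      · rw [if_pos hc, h5]
        split_ifs <;> linarith
      · rw [if_neg hc]
        by_cases hd : l ∈ insert 2 (Icc 1 B0)
        · rw [if_pos hd]
          linarith
        · rw [if_neg hd]
          rw [mem_insert, mem_Icc, not_or, not_and] at hd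
          have h9 : ¬ l ∣ B0 := fun h => hd.2 hlp.one_lt.le (Nat.le_of_dvd (Nat.pos_of_ne_zero hB0) h)
          have h10 : ¬ 0 < eR l := fun h => hc ⟨h9, hd.1, h⟩
          rw [h5] at h10
          linarith
    rw [Finset.mul_sum]
    refine (Finset.sum_le_sum h1).trans ?_
    rw [Finset.sum_add_distrib, Finset.sum_add_distrib, ← Finset.sum_filter, ← hR1]
    refine add_le_add le_rfl (add_le_add ?_ ?_)
    · rw [← Finset.mul_sum]
      exact mul_le_mul_of_nonneg_left (hsq _) (by positivity)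
    · rw [← Finset.sum_filter, Finset.sum_const, nsmul_eq_mul, mul_comm]
      refine mul_le_mul_of_nonneg_left ?_ hn0.le
      have h2 : (R.filter fun l => l ∈ insert 2 (Icc 1 B0)).card ≤ B0 + 1 := by
        refine (Finset.card_le_card (fun l hl => (mem_filter.1 hl).2)).trans ?_
        refine (Finset.card_insert_le _ _).trans ?_
        rw [Nat.card_Icc, Nat.add_sub_cancel]
      exact_mod_cast h2
  have hexp : Real.exp (- ∑ t ∈ P1' ∪ R1, η t) ≤ (∏ l ∈ P', (oma T l m : ℝ) / (l : ℝ) ^ n) *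
      Real.exp (K * K2 + (((n : ℝ) + 1) ^ 2 * K2 + n * (B0 + 1))) *
        Real.exp (- (1 / 2 * ∑ l ∈ R, (N1 L l : ℝ) / l)) := by
    rw [hsum, neg_add, Real.exp_add]
    have h1 : Real.exp (- ∑ l ∈ R1, eR l) ≤ Real.exp (((n : ℝ) + 1) ^ 2 * K2 + n * (B0 + 1)) *
        Real.exp (- (1 / 2 * ∑ l ∈ R, (N1 L l : ℝ) / l)) := by
      rw [← Real.exp_add]
      apply Real.exp_le_exp.2
      linarith
    calc Real.exp (- ∑ l ∈ P', eP l) * Real.exp (- ∑ l ∈ R1, eR l) ≤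
        ((∏ l ∈ P', (oma T l m : ℝ) / (l : ℝ) ^ n) * Real.exp (K * K2)) *
        (Real.exp (((n : ℝ) + 1) ^ 2 * K2 + n * (B0 + 1)) *
        Real.exp (- (1 / 2 * ∑ l ∈ R, (N1 L l : ℝ) / l))) :=
          mul_le_mul hexpP h1 (Real.exp_pos _).le (mul_nonneg (Finset.prod_nonneg fun _ _ => by positivity)
            (Real.exp_pos _).le)
      _ = _ := by
          rw [Real.exp_add (K * K2)]
          ring
  have hsplit : ∏ l ∈ P, (oma T l m : ℝ) / (l : ℝ) ^ n = (∏ l ∈ D, (oma T l m : ℝ) / (l : ℝ) ^ n) *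
      ∏ l ∈ P', (oma T l m : ℝ) / (l : ℝ) ^ n :=
    (Finset.prod_filter_mul_prod_filter_not P (fun l => (l : ℤ) ∣ m) _).symm
  rw [hsplit]
  refine hcard.trans ?_
  rw [hM]
  have hDnn : 0 ≤ ∏ l ∈ D, (oma T l m : ℝ) / (l : ℝ) ^ n := Finset.prod_nonneg fun _ _ => by positivity
  calc (∏ l ∈ D, (oma T l m : ℝ)) * (Co * (Y / q) ^ n * Real.exp (- ∑ t ∈ P1' ∪ R1, η t))
      = Co * ((∏ l ∈ D, (oma T l m : ℝ)) * (Y / q) ^ n) * Real.exp (- ∑ t ∈ P1' ∪ R1, η t) := by ring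
    _ = Co * (Y ^ n * ∏ l ∈ D, (oma T l m : ℝ) / (l : ℝ) ^ n) * Real.exp (- ∑ t ∈ P1' ∪ R1, η t) := by
        rw [hprodD]
    _ ≤ Co * (Y ^ n * ∏ l ∈ D, (oma T l m : ℝ) / (l : ℝ) ^ n) * ((∏ l ∈ P', (oma T l m : ℝ) / (l : ℝ) ^ n) *
      Real.exp (K * K2 + (((n : ℝ) + 1) ^ 2 * K2 + n * (B0 + 1))) *
        Real.exp (- (1 / 2 * ∑ l ∈ R, (N1 L l : ℝ) / l))) := by
        refine mul_le_mul_of_nonneg_left hexp ?_
        exact mul_nonneg hCo.le (mul_nonneg (by positivity) hDnn)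
    _ = _ := by ring

end Pool.Agent.Q150.EA
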