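import Pool.Agent.Q161.EA.Stm
import Pool.Agent.Q91.EL.Small
import Pool.Agent.Q91.EL.Sums
import Pool.Agent.Q51.EL.LSV
import Pool.Agent.Q247.EL.SIEVE

/-!
# Project EA of helper161, job ASV, part A: classes modulo `l`
-/

set_option autoImplicit false
set_option linter.all false

namespace Pool.Agent.Q150.EA

open NumberField IsDedekindDomain Finset
open Pool.Agent.Q51.EL Pool.Agent.Q161.EA
open Pool.Agent.Q161.OD (P1 P2 red rho)

variable {L : Type} [Field L] [NumberField L]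

theorem card_quot (l : ℕ) : Nat.card (𝓞 L ⧸ Ideal.span {(l : 𝓞 L)}) = l ^ Module.finrank ℚ L := by
  have h1 : Ideal.absNorm (Ideal.span {(l : 𝓞 L)}) = l ^ Module.finrank ℚ L := by
    rw [Ideal.absNorm_span_singleton]
    have h2 : (l : 𝓞 L) = algebraMap ℤ (𝓞 L) (l : ℤ) := by simp
    rw [h2, Algebra.norm_algebraMap, RingOfIntegers.rank L, Int.natAbs_pow, Int.natAbs_natCast]
  rw [← h1]
  rfl

theorem finite_quot {l : ℕ} (hl : l.Prime) : Finite (𝓞 L ⧸ Ideal.span {(l : 𝓞 L)}) := by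
  apply Nat.finite_of_card_ne_zero
  rw [card_quot]
  exact pow_ne_zero _ hl.ne_zero

/-- the classes in a prime above `l` -/
theorem card_prime {l : ℕ} (hl : l.Prime) (v : HeightOneSpectrum (𝓞 L)) (hv : Abv v l) :
    (Ideal.Quotient.mk (Ideal.span {(l : 𝓞 L)}) '' (v.asIdeal : Set (𝓞 L))).ncard * l ≤
      l ^ Module.finrank ℚ L := by
  have hle : Ideal.span {(l : 𝓞 L)} ≤ v.asIdeal := by
    rw [Ideal.span_singleton_le_iff_mem]
    exact hv
  have h1 := Submodule.card_quotient_mul_card_quotient v.asIdeal (Ideal.span {(l : 𝓞 L)}) hle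
  have h2 : Nat.card (𝓞 L ⧸ v.asIdeal) = Ideal.absNorm v.asIdeal := rfl
  have h3 : l ∣ Ideal.absNorm v.asIdeal := by
    have h4 := Pool.Agent.Q91.EL.int_mem hl hv (r := (Ideal.absNorm v.asIdeal : ℤ)) (by
      have := Ideal.absNorm_mem v.asIdeal
      exact_mod_cast this)
    exact_mod_cast h4
  have h5 : l ≤ Ideal.absNorm v.asIdeal :=
    Nat.le_of_dvd (Nat.pos_of_ne_zero (Ideal.absNorm_ne_zero_of_nonZeroDivisors
      ⟨v.asIdeal, mem_nonZeroDivisors_of_ne_zero v.ne_bot⟩)) h3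
  have h6 : (Ideal.Quotient.mk (Ideal.span {(l : 𝓞 L)}) '' (v.asIdeal : Set (𝓞 L))).ncard =
      Nat.card (Submodule.map (Ideal.span {(l : 𝓞 L)}).mkQ v.asIdeal) := rfl
  rw [h6]
  have h7 : Nat.card (𝓞 L ⧸ Ideal.span {(l : 𝓞 L)}) = l ^ Module.finrank ℚ L := card_quot l
  rw [← h7, ← h1]
  exact Nat.mul_le_mul_left _ (h2 ▸ h5)

/-- at most `n` primes above `l` -/
theorem card_abv {l : ℕ} (hl : l.Prime) :
    {v : HeightOneSpectrum (𝓞 L) | Abv v l}.Finite ∧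
    {v : HeightOneSpectrum (𝓞 L) | Abv v l}.ncard ≤ Module.finrank ℚ L := by
  classical
  have hl' : Prime (l : ℤ) := Nat.prime_iff_prime_int.mp hl
  have hp0 : (Ideal.span {(l : ℤ)} : Ideal ℤ) ≠ ⊥ := by
    rw [Ne, Ideal.span_singleton_eq_bot]; exact hl'.ne_zero
  have : (Ideal.span {(l : ℤ)} : Ideal ℤ).IsMaximal :=
    PrincipalIdealRing.isMaximal_of_irreducible hl'.irreducible
  have h1 := Ideal.card_primesOverFinset_le_finrank (𝓞 L) ℚ L hp0
  have hmap : Set.MapsTo (fun v : HeightOneSpectrum (𝓞 L) => v.asIdeal) {v | Abv v l}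
      (IsDedekindDomain.primesOverFinset (Ideal.span {(l : ℤ)}) (𝓞 L) : Set (Ideal (𝓞 L))) := by
    intro v hv
    exact (IsDedekindDomain.mem_primesOverFinset_iff hp0 _).mpr ⟨v.isPrime, Pool.Agent.Q91.EL.abv_liesOver hl hv⟩
  have hinj : Set.InjOn (fun v : HeightOneSpectrum (𝓞 L) => v.asIdeal) {v | Abv v l} := by
    intro v _ w _ h
    exact HeightOneSpectrum.ext h
  refine ⟨Set.Finite.of_injOn hmap hinj (Finset.finite_toSet _), ?_⟩
  refine (Set.ncard_le_ncard_of_injOn _ hmap hinj (Finset.finite_toSet _)).trans ?_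
  rw [Set.ncard_coe_finset]
  exact h1

/-- most classes are units -/
theorem card_units {l : ℕ} (hl : l.Prime) :
    (l : ℝ) ^ Module.finrank ℚ L * (1 - (Module.finrank ℚ L : ℝ) / l) ≤
    (((Ideal.Quotient.mk (Ideal.span {(l : 𝓞 L)})) '' {α : 𝓞 L | Un l α}).ncard : ℝ) := by
  classical
  have hfin := finite_quot (L := L) hl
  have hl0 : (0 : ℝ) < l := by exact_mod_cast hl.pos
  obtain ⟨hf, hc⟩ := card_abv (L := L) hl
  set mk := Ideal.Quotient.mk (Ideal.span {(l : 𝓞 L)}) with hmk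
  have h1 : (Set.univ : Set (𝓞 L ⧸ Ideal.span {(l : 𝓞 L)})) ⊆ mk '' {α : 𝓞 L | Un l α} ∪
      ⋃ v ∈ hf.toFinset, mk '' (v.asIdeal : Set (𝓞 L)) := by
    intro x _
    obtain ⟨α, rfl⟩ := Ideal.Quotient.mk_surjective x
    by_cases hα : Un l α
    · exact Or.inl ⟨α, hα, rfl⟩
    · right
      unfold Un at hα
      push Not at hα
      obtain ⟨v, hv1, hv2⟩ := hα
      refine Set.mem_iUnion₂.2 ⟨v, ?_, α, hv2, rfl⟩
      rw [Set.Finite.mem_toFinset]
      exact hv1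
  have h2 := (Set.ncard_le_ncard h1 (Set.toFinite _)).trans (Set.ncard_union_le _ _)
  have h3 : (⋃ v ∈ hf.toFinset, mk '' (v.asIdeal : Set (𝓞 L))).ncard ≤
      ∑ v ∈ hf.toFinset, (mk '' (v.asIdeal : Set (𝓞 L))).ncard := by
    induction hf.toFinset using Finset.induction_on with
    | empty => simp
    | insert a s ha ih =>
      rw [Finset.sum_insert ha, Finset.set_biUnion_insert]
      exact (Set.ncard_union_le _ _).trans (Nat.add_le_add_left ih _)
  have h4 : ∑ v ∈ hf.toFinset, ((mk '' (v.asIdeal : Set (𝓞 L))).ncard : ℝ) ≤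
      Module.finrank ℚ L * ((l : ℝ) ^ Module.finrank ℚ L / l) := by
    have h5 : ∀ v ∈ hf.toFinset, ((mk '' (v.asIdeal : Set (𝓞 L))).ncard : ℝ) ≤
        (l : ℝ) ^ Module.finrank ℚ L / l := by
      intro v hv
      rw [Set.Finite.mem_toFinset] at hv
      rw [le_div_iff₀ hl0]
      exact_mod_cast card_prime hl v hv
    refine (Finset.sum_le_card_nsmul _ _ _ h5).trans ?_
    rw [nsmul_eq_mul]
    refine mul_le_mul_of_nonneg_right ?_ (by positivity)
    rw [← Set.ncard_eq_toFinset_card _ hf]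
    exact_mod_cast hc
  rw [Set.ncard_univ, card_quot] at h2
  have h6 : ((l ^ Module.finrank ℚ L : ℕ) : ℝ) ≤ ((mk '' {α : 𝓞 L | Un l α}).ncard : ℝ) +
      ∑ v ∈ hf.toFinset, ((mk '' (v.asIdeal : Set (𝓞 L))).ncard : ℝ) := by
    exact_mod_cast h2.trans (Nat.add_le_add_left h3 _)
  push_cast at h6
  have h7 : (l : ℝ) ^ Module.finrank ℚ L * (1 - (Module.finrank ℚ L : ℝ) / l) =
      (l : ℝ) ^ Module.finrank ℚ L - Module.finrank ℚ L * ((l : ℝ) ^ Module.finrank ℚ L / l) := by ring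
  rw [h7]
  linarith

/-- bounds for the number of allowed classes -/
theorem oma_bds {l : ℕ} (hl : l.Prime) (T : Set (𝓞 L × ℤ)) (m : ℤ) (hm : ¬ (l : ℤ) ∣ m) :
    (l : ℝ) ^ Module.finrank ℚ L * (1 - (Module.finrank ℚ L : ℝ) / l) ≤ (oma T l m : ℝ) ∧
    (1 : ℝ) ≤ oma T l m ∧ (oma T l m : ℝ) ≤ (l : ℝ) ^ Module.finrank ℚ L := by
  have hfin := finite_quot (L := L) hl
  have hsub : {α : 𝓞 L | Un l α} ⊆ {α : 𝓞 L | (α, m) ∈ Sat l T} := by
    intro α hα
    left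
    exact ⟨hα, Or.inl hm⟩
  refine ⟨(card_units hl).trans ?_, ?_, ?_⟩
  · unfold oma
    exact_mod_cast Set.ncard_le_ncard (Set.image_mono hsub) (Set.toFinite _)
  · have h1 : (Ideal.Quotient.mk (Ideal.span {(l : 𝓞 L)}) '' {α : 𝓞 L | (α, m) ∈ Sat l T}).Nonempty := by
      refine ⟨_, 1, hsub ?_, rfl⟩
      intro v _ h1
      exact v.isPrime.ne_top ((Ideal.eq_top_iff_one _).2 h1)
    have h2 := (Set.ncard_pos (Set.toFinite _)).2 h1
    unfold oma
    exact_mod_cast h2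
  · have h1 := Set.ncard_le_ncard (Set.subset_univ (Ideal.Quotient.mk (Ideal.span {(l : 𝓞 L)}) ''
      {α : 𝓞 L | (α, m) ∈ Sat l T})) (Set.toFinite _)
    rw [Set.ncard_univ, card_quot] at h1
    unfold oma
    exact_mod_cast h1

theorem oma_le_pow {l : ℕ} (hl : l.Prime) (T : Set (𝓞 L × ℤ)) (m : ℤ) :
    (oma T l m : ℝ) ≤ (l : ℝ) ^ Module.finrank ℚ L := by
  have hfin := finite_quot (L := L) hl
  have h1 := Set.ncard_le_ncard (Set.subset_univ (Ideal.Quotient.mk (Ideal.span {(l : 𝓞 L)}) ''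
      {α : 𝓞 L | (α, m) ∈ Sat l T})) (Set.toFinite _)
  rw [Set.ncard_univ, card_quot] at h1
  unfold oma
  exact_mod_cast h1

/-- classes of the translated and dilated set -/
theorem shift_le {t q : ℕ} (ht : t.Prime) (htq : ¬ t ∣ q) (α₀ : 𝓞 L) (T' U : Set (𝓞 L))
    (h : ∀ β ∈ T', α₀ + (q : 𝓞 L) * β ∈ U) :
    (Ideal.Quotient.mk (Ideal.span {(t : 𝓞 L)}) '' T').ncard ≤
      (Ideal.Quotient.mk (Ideal.span {(t : 𝓞 L)}) '' U).ncard := by
  have hfin := finite_quot (L := L) ht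
  set mk := Ideal.Quotient.mk (Ideal.span {(t : 𝓞 L)}) with hmk
  obtain ⟨a, b, hab⟩ : IsCoprime (t : ℤ) (q : ℤ) :=
    (Nat.isCoprime_iff_coprime).2 ((Nat.Prime.coprime_iff_not_dvd ht).2 htq)
  have hu : mk (b : 𝓞 L) * mk (q : 𝓞 L) = 1 := by
    rw [← map_mul, ← map_one mk, hmk, Ideal.Quotient.eq, Ideal.mem_span_singleton]
    refine ⟨-(a : 𝓞 L), ?_⟩
    have h2 : (a : 𝓞 L) * (t : 𝓞 L) + (b : 𝓞 L) * (q : 𝓞 L) = 1 := by exact_mod_cast congrArg (Int.cast : ℤ → 𝓞 L) hab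
    linear_combination h2
  refine Set.ncard_le_ncard_of_injOn (fun x => mk α₀ + mk (q : 𝓞 L) * x) ?_ ?_ (Set.toFinite _)
  · rintro x ⟨β, hβ, rfl⟩
    refine ⟨α₀ + (q : 𝓞 L) * β, h β hβ, ?_⟩
    rw [map_add, map_mul]
  · intro x _ y _ hxy
    have h1 : mk (q : 𝓞 L) * x = mk (q : 𝓞 L) * y := add_left_cancel hxy
    have h2 := congrArg (fun z => mk (b : 𝓞 L) * z) h1
    rwa [← mul_assoc, ← mul_assoc, hu, one_mul, one_mul] at h2

end Pool.Agent.Q150.EA
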