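import Pool.Agent.Q150.EA.AsvA

/-!
# Project EA of helper161, job ASV, part B: the sieve in one class, decomposition into classes
-/

set_option autoImplicit false
set_option linter.all false

namespace Pool.Agent.Q150.EA

open NumberField IsDedekindDomain Finset
open Pool.Agent.Q51.EL Pool.Agent.Q161.EA
open Pool.Agent.Q161.OD (P1 P2 red rho)

/-- the decomposition into classes -/
theorem classes {L : Type} [Field L] [NumberField L] (D : Finset ℕ) (hD : ∀ l ∈ D, l.Prime) (T : Set (𝓞 L × ℤ))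
    (m : ℤ) (S : Finset (𝓞 L)) (hS : ∀ α ∈ S, (α, m) ∈ T) (M : ℝ) (hM : 0 ≤ M)
    (hfib : ∀ α₀ ∈ S, ∀ F : Finset (𝓞 L), F ⊆ S → (∀ α ∈ F, ((∏ l ∈ D, l : ℕ) : 𝓞 L) ∣ α - α₀) →
      (F.card : ℝ) ≤ M) :
    (S.card : ℝ) ≤ (∏ l ∈ D, (oma T l m : ℝ)) * M := by
  classical
  have hfin : ∀ l : D, Finite (𝓞 L ⧸ Ideal.span {((l : ℕ) : 𝓞 L)}) := fun l => finite_quot (hD l l.2)
  let f : 𝓞 L → ((l : D) → 𝓞 L ⧸ Ideal.span {((l : ℕ) : 𝓞 L)}) := fun α l => Ideal.Quotient.mk _ α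
  let A : (l : D) → Finset (𝓞 L ⧸ Ideal.span {((l : ℕ) : 𝓞 L)}) := fun l =>
    (Set.toFinite (Ideal.Quotient.mk (Ideal.span {((l : ℕ) : 𝓞 L)}) '' {α : 𝓞 L | (α, m) ∈ Sat (l : ℕ) T})).toFinset
  have hA : ∀ l : D, ((A l).card : ℝ) = oma T l m := by
    intro l
    unfold oma
    rw [← Set.ncard_eq_toFinset_card]
  have himg : S.image f ⊆ Fintype.piFinset A := by
    intro x hx
    rw [Finset.mem_image] at hx
    obtain ⟨α, hα, rfl⟩ := hx
    rw [Fintype.mem_piFinset]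
    intro l
    rw [Set.Finite.mem_toFinset]
    exact ⟨α, Or.inr ⟨(α, m), hS α hα, rfl⟩, rfl⟩
  have hcard : ((S.image f).card : ℝ) ≤ ∏ l ∈ D, (oma T l m : ℝ) := by
    have h1 := Finset.card_le_card himg
    rw [Fintype.card_piFinset] at h1
    have h2 : ((∏ l : D, (A l).card : ℕ) : ℝ) = ∏ l ∈ D, (oma T l m : ℝ) := by
      push_cast
      rw [Finset.prod_congr rfl fun l _ => hA l]
      exact Finset.prod_coe_sort D fun l => (oma T l m : ℝ)
    rw [← h2]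
    exact_mod_cast h1
  have hfibre : ∀ b ∈ S.image f, ((S.filter fun α => f α = b).card : ℝ) ≤ M := by
    intro b hb
    rw [Finset.mem_image] at hb
    obtain ⟨α₀, hα₀, rfl⟩ := hb
    refine hfib α₀ hα₀ _ (Finset.filter_subset _ _) ?_
    intro α hα
    rw [Finset.mem_filter] at hα
    have h1 : ∀ l ∈ D, (l : 𝓞 L) ∣ α - α₀ := by
      intro l hl
      have h2 := congrFun hα.2 ⟨l, hl⟩
      have h3 := (Ideal.Quotient.eq).1 h2
      rwa [Ideal.mem_span_singleton] at h3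
    rw [Nat.cast_prod]
    refine Finset.prod_dvd_of_coprime ?_ h1
    intro l hl l' hl' hne
    have h2 : IsCoprime (l : ℤ) (l' : ℤ) := (Nat.isCoprime_iff_coprime).2
      ((Nat.coprime_primes (hD l hl) (hD l' hl')).2 hne)
    have h3 := h2.map (Int.castRingHom (𝓞 L))
    simpa using h3
  have hsum : (S.card : ℝ) = ∑ b ∈ S.image f, ((S.filter fun α => f α = b).card : ℝ) := by
    have h1 := Finset.card_eq_sum_card_image f S
    rw [h1]
    push_cast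
    rfl
  rw [hsum]
  refine (Finset.sum_le_card_nsmul _ _ _ hfibre).trans ?_
  rw [nsmul_eq_mul]
  exact mul_le_mul_of_nonneg_right hcard hM

/-- the sieve bound for one class -/
theorem one_class (L : Type) [Field L] [NumberField L] : ∃ C : ℝ, 0 < C ∧
    ∀ (q : ℕ) (α₀ : 𝓞 L) (F : Finset (𝓞 L)) (U : ℕ → Set (𝓞 L)) (Y : ℝ) (P : Finset ℕ) (η : ℕ → ℝ),
      1 ≤ Y → 1 ≤ q → (q : ℝ) ^ 2 ≤ Y → (∀ α ∈ F, (q : 𝓞 L) ∣ α - α₀) →
      (∀ σ : L →+* ℂ, ‖σ (α₀ : L)‖ ≤ Y) → (∀ α ∈ F, ∀ σ : L →+* ℂ, ‖σ (α : L)‖ ≤ Y) →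
      (∀ t ∈ P, t.Prime ∧ ¬ t ∣ q ∧ (t : ℝ) ^ 4 ≤ Y) →
      (∀ t ∈ P, 0 < η t ∧ η t ≤ Module.finrank ℚ L / t) →
      (∀ t ∈ P, (∀ α ∈ F, α ∈ U t) ∧
        (((Ideal.Quotient.mk (Ideal.span {(t : 𝓞 L)}) '' (U t)).ncard : ℕ) : ℝ) ≤
          (1 - η t) * (t : ℝ) ^ Module.finrank ℚ L) →
      (F.card : ℝ) ≤ C * (Y / q) ^ Module.finrank ℚ L * Real.exp (- ∑ t ∈ P, η t) := by
  classical
  obtain ⟨Cs, hCs, hsieve⟩ := Pool.Agent.Q247.EL.sieve Pool.Agent.Q51.EL.lsv L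
  set n := Module.finrank ℚ L with hndef
  have hn1 : 0 < n := Module.finrank_pos
  have hn0 : (0:ℝ) < n := by exact_mod_cast hn1
  obtain ⟨c2, hc2, hsums⟩ := Pool.Agent.Q91.EL.sums n hn0
  refine ⟨Cs / c2 * 2 ^ n, by positivity, ?_⟩
  intro q α₀ F U Y P η hY hq hqY hF hα₀ hFY hP hη hU
  have hq0 : (0 : ℝ) < q := by exact_mod_cast hq
  have hq1 : (1 : ℝ) ≤ q := by exact_mod_cast hq
  have hY0 : 0 < Y := by linarith
  have hqO : (q : 𝓞 L) ≠ 0 := by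
    exact_mod_cast (by omega : q ≠ 0)
  -- the quotients
  have hch : ∀ α : 𝓞 L, ∃ β : 𝓞 L, α ∈ F → α = α₀ + (q : 𝓞 L) * β := by
    intro α
    by_cases h : α ∈ F
    · obtain ⟨β, hβ⟩ := hF α h
      exact ⟨β, fun _ => by rw [← hβ]; ring⟩
    · exact ⟨0, fun h' => absurd h' h⟩
  choose g hg using hch
  set G : Finset (𝓞 L) := F.image g with hG
  have hGc : G.card = F.card := by
    rw [hG]
    refine Finset.card_image_of_injOn ?_
    intro α hα β hβ hab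
    rw [hg α hα, hg β hβ, hab]
  obtain ⟨Y1, hY1⟩ : ∃ Y1 : ℝ, Y1 = 2 * (Y / q) := ⟨_, rfl⟩
  have hYq : √Y ≤ Y / q := by
    rw [le_div_iff₀ hq0]
    have h1 : (q : ℝ) ≤ √Y := Real.le_sqrt_of_sq_le hqY
    calc √Y * q ≤ √Y * √Y := by gcongr
      _ = Y := Real.mul_self_sqrt hY0.le
  have hsq1 : 1 ≤ √Y := Real.one_le_sqrt.2 hY
  have hY11 : 1 ≤ Y1 := by
    rw [hY1]
    linarith
  have hGset : {β ∈ (G : Set (𝓞 L)) | ∀ σ : L →+* ℂ, ‖σ (β : L)‖ ≤ Y1} = (G : Set (𝓞 L)) := by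
    ext β
    constructor
    · exact fun h => h.1
    · intro h
      refine ⟨h, fun σ => ?_⟩
      rw [hG, Finset.coe_image] at h
      obtain ⟨α, hα, rfl⟩ := h
      have h1 := hg α hα
      have h2 : (q : ℂ) * σ ((g α : 𝓞 L) : L) = σ (α : L) - σ (α₀ : L) := by
        have h3 : ((α : 𝓞 L) : L) = (α₀ : L) + (q : L) * ((g α : 𝓞 L) : L) := by
          conv_lhs => rw [h1]
          simp
        rw [h3, map_add, map_mul, map_natCast]
        ring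
      have h4 : (q : ℝ) * ‖σ ((g α : 𝓞 L) : L)‖ ≤ 2 * Y := by
        have h5 : ‖(q : ℂ) * σ ((g α : 𝓞 L) : L)‖ = (q : ℝ) * ‖σ ((g α : 𝓞 L) : L)‖ := by
          rw [norm_mul, Complex.norm_natCast]
        rw [← h5, h2]
        have h6 := norm_sub_le (σ (α : L)) (σ (α₀ : L))
        have h7 := hFY α hα σ
        have h8 := hα₀ σ
        linarith
      rw [hY1, ← mul_div_assoc, le_div_iff₀ hq0]
      linarith
  have hPle : ∀ t ∈ P, (t : ℝ) ≤ √Y1 := by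
    intro t ht
    apply Real.le_sqrt_of_sq_le
    have h1 : ((t : ℝ) ^ 2) ≤ √Y := by
      apply Real.le_sqrt_of_sq_le
      have := (hP t ht).2.2
      nlinarith
    rw [hY1]
    linarith
  have hs := hsieve Y1 P (G : Set (𝓞 L)) η hY11 (fun t ht => (hP t ht).1) (fun t ht => ⟨(hη t ht).1, by
    refine le_trans ?_ (hU t ht).2
    have h1 := shift_le (hP t ht).1 (hP t ht).2.1 α₀ (G : Set (𝓞 L)) (U t) (by
      intro β hβ
      rw [hG, Finset.coe_image] at hβ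
      obtain ⟨α, hα, rfl⟩ := hβ
      have h2 := hg α hα
      rw [← h2]
      exact (hU t ht).1 α hα)
    exact_mod_cast h1⟩)
  rw [hGset, Set.ncard_coe_finset, hGc] at hs
  set Q : ℕ := ⌊√Y1⌋₊ with hQ
  have hsqY1 : 1 ≤ √Y1 := Real.one_le_sqrt.2 hY11
  have hQ1 : 1 ≤ Q := Nat.le_floor (by push_cast; exact hsqY1)
  have hss := hsums Q P η hQ1 (fun t ht => (hP t ht).1) (fun t ht => Nat.le_floor (hPle t ht))
    (fun t ht => ⟨(hη t ht).1.le, (hη t ht).2⟩)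
  have hfilter : P.powerset.filter (fun D => ∏ t ∈ D, t ≤ Q) =
      P.powerset.filter (fun D => (((∏ t ∈ D, t : ℕ) : ℝ)) ^ 2 ≤ Y1) := by
    refine Finset.filter_congr fun D _ => ?_
    rw [hQ, Nat.le_floor_iff (by linarith)]
    constructor
    · intro h
      have h1 := pow_le_pow_left₀ (Nat.cast_nonneg _) h 2
      rwa [Real.sq_sqrt (by linarith)] at h1
    · intro h
      exact Real.le_sqrt_of_sq_le h
  rw [hfilter] at hss
  obtain ⟨E, hE⟩ : ∃ E : ℝ, E = Real.exp (∑ t ∈ P, η t) := ⟨_, rfl⟩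
  have hE0 : 0 < E := by rw [hE]; exact Real.exp_pos _
  rw [← hE] at hss
  have h1 : (F.card : ℝ) * (c2 * E) ≤ Cs * Y1 ^ n :=
    (mul_le_mul_of_nonneg_left hss (Nat.cast_nonneg _)).trans hs.2
  rw [Real.exp_neg, ← hE]
  have h2 : Cs / c2 * 2 ^ n * (Y / q) ^ n * E⁻¹ = Cs * Y1 ^ n / (c2 * E) := by
    rw [hY1, mul_pow]
    field_simp
  rw [h2, le_div_iff₀ (by positivity)]
  exact h1

end Pool.Agent.Q150.EA
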